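import Pool.Agent.Work.MP_674062_gt.Un.All

namespace Pool.Agent.Results.MP_674062_gt.ConcentratedUnions

open Pool.Agent.Work.MP_674062_gt.Un

/-- If the sets of reals `X n` have `Split(Λ,Λ)` and every `X n` with `n ≥ 1` is Hurewicz, or is
concentrated modulo the Hurewicz property on a Hurewicz subset, then the union of all `X n` has
`Split(Λ,Λ)`. -/
theorem result : ∀ X : ℕ → Set ℝ, (∀ n, SplitLL (X n)) →
    (∀ n, ∃ H ⊆ X (n + 1), Hurewicz H ∧
      ∀ G : Set ℝ, IsOpen G → H ⊆ G → Hurewicz (X (n + 1) \ G)) →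
    SplitLL (⋃ n, X n : Set ℝ) :=
  concentrated

end Pool.Agent.Results.MP_674062_gt.ConcentratedUnions
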