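import Pool.Agent.Work.MP_674062_gt.Un.All

namespace Pool.Agent.Results.MP_674062_gt.IncreasingUnions

open Pool.Agent.Work.MP_674062_gt.Un

/-- The union of an increasing sequence of Menger sets of reals with `Split(Λ,Λ)` has
`Split(Λ,Λ)`. -/
theorem result : ∀ X : ℕ → Set ℝ, Monotone X → (∀ n, Menger (X n)) → (∀ n, SplitLL (X n)) →
    SplitLL (⋃ n, X n : Set ℝ) :=
  increasing

end Pool.Agent.Results.MP_674062_gt.IncreasingUnions
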