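import Mathlib

open Set Topology Cardinal

namespace Pool.Agent.Results.MP_674062_gt.NonAdditive

/-!
# Split(Λ,Λ) is consistently not additive

Under `cov(M) = 𝔠` we build, by a recursion of length `𝔠`, sets `X, Y` in the Cantor space such
that each of them has `Split(Λ,Λ)` and `X ∪ Y` has not. At each stage we have families `R`, `S` of
fewer than `𝔠` open sets, which all (old and new) points of `X`, respectively `Y`, must meet. The
invariant is the duality `Dual R S`: for every `A ⊆ ω`, either all members of `R` are dense in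
`P(A)` or all members of `S` are dense in `P(ω \ A)`. A compactness argument shows that for every
sequence `W` of open sets that is large on all points satisfying `R` a set `B` with long enough
intervals in `B` and in its complement can be used to split `W` without destroying the duality.
-/

/-! ### Cantor space -/

/-- Cantor space. -/
abbrev C := ℕ → Bool

/-- Pointwise order. -/
def Le (x A : C) : Prop := ∀ n, x n = true → A n = true

lemma Le.refl (x : C) : Le x x := fun _ h => h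
lemma Le.trans {x y z : C} (h : Le x y) (h' : Le y z) : Le x z := fun n hn => h' n (h n hn)

/-- Upward closure. -/
def up (G : Set C) : Set C := {A | ∃ x ∈ G, Le x A}

/-- The set of `A` such that `K` meets `P(A)` but `K ∩ O` does not. -/
def N (K O : Set C) : Set C := up K \ up (K ∩ O)

/-- Complement. -/
def co (A : C) : C := fun n => !(A n)

@[simp] lemma co_co (A : C) : co (co A) = A := by
  funext n; simp [co]

/-- Basic clopen sets. -/
def cyl (p : Finset ℕ × ℕ) : Set C := {z | ∀ i < p.2, (z i = true ↔ i ∈ p.1)}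

/-- The code of the cylinder of length `n` about `x`. -/
def code (x : C) (n : ℕ) : Finset ℕ × ℕ := ((Finset.range n).filter (fun i => x i = true), n)

lemma mem_cyl_code {x y : C} {n : ℕ} : y ∈ cyl (code x n) ↔ ∀ i < n, y i = x i := by
  constructor
  · intro h i hi
    have := h i hi
    simp only [code, Finset.mem_filter, Finset.mem_range, hi, true_and] at this
    exact Bool.eq_iff_iff.2 this
  · intro h i hi
    have hi' : i < n := hi
    simp [code, hi', h i hi']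

lemma isOpen_iff_agree {O : Set C} :
    IsOpen O ↔ ∀ x ∈ O, ∃ n, ∀ y : C, (∀ i < n, y i = x i) → y ∈ O := by
  constructor
  · intro hO x hx
    obtain ⟨_, ⟨y, n, rfl⟩, hxs, hsub⟩ :=
      (PiNat.isTopologicalBasis_cylinders (fun _ : ℕ => Bool)).mem_nhds_iff.1 (hO.mem_nhds hx)
    refine ⟨n, fun z hz => hsub ?_⟩
    rw [PiNat.mem_cylinder_iff] at *
    intro i hi
    rw [hz i hi, hxs i hi]
  · intro h
    rw [isOpen_iff_mem_nhds]
    intro x hx
    obtain ⟨n, hn⟩ := h x hx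
    have : PiNat.cylinder x n ⊆ O := fun y hy => hn y (fun i hi => PiNat.mem_cylinder_iff.1 hy i hi)
    exact Filter.mem_of_superset ((PiNat.isOpen_cylinder _ x n).mem_nhds (PiNat.self_mem_cylinder x n)) this

lemma isClopen_cyl (p : Finset ℕ × ℕ) : IsClopen (cyl p) := by
  have h : cyl p = ⋂ i ∈ Finset.range p.2, {z : C | (z i = true ↔ i ∈ p.1)} := by
    ext z; simp [cyl]
  rw [h]
  apply isClopen_biInter_finset
  intro i _
  have : {z : C | (z i = true ↔ i ∈ p.1)} = (fun z : C => z i) ⁻¹' {b | (b = true ↔ i ∈ p.1)} := rfl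
  rw [this]
  exact (isClopen_discrete _).preimage (continuous_apply i)

lemma exists_cyl_subset {O : Set C} (hO : IsOpen O) {x : C} (hx : x ∈ O) :
    ∃ n, x ∈ cyl (code x n) ∧ cyl (code x n) ⊆ O := by
  obtain ⟨n, hn⟩ := isOpen_iff_agree.1 hO x hx
  exact ⟨n, mem_cyl_code.2 fun _ _ => rfl, fun y hy => hn y (mem_cyl_code.1 hy)⟩

lemma up_mono {G G' : Set C} (h : G ⊆ G') : up G ⊆ up G' := by
  rintro A ⟨x, hx, hxA⟩; exact ⟨x, h hx, hxA⟩

lemma isOpen_up {G : Set C} (hG : IsOpen G) : IsOpen (up G) := by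
  rw [isOpen_iff_agree]
  rintro A ⟨x, hx, hxA⟩
  obtain ⟨n, hn⟩ := isOpen_iff_agree.1 hG x hx
  refine ⟨n, fun A' hA' => ⟨fun i => if i < n then x i else false, hn _ ?_, ?_⟩⟩
  · intro i hi; simp [hi]
  · intro i hi
    by_cases h : i < n
    · simp only [h, if_true] at hi
      rw [hA' i h]; exact hxA i hi
    · simp [h] at hi

lemma isClosed_up {K : Set C} (hK : IsClosed K) : IsClosed (up K) := by
  have h1 : IsClosed {p : C × C | p.1 ∈ K ∧ Le p.1 p.2} := by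
    apply (hK.preimage continuous_fst).inter
    have : {p : C × C | Le p.1 p.2} = ⋂ n, {p : C × C | p.1 n = true → p.2 n = true} := by
      ext p; simp [Le]
    change IsClosed {p : C × C | Le p.1 p.2}
    rw [this]
    apply isClosed_iInter
    intro n
    have h2 : {p : C × C | p.1 n = true → p.2 n = true} =
        (fun p : C × C => (p.1 n, p.2 n)) ⁻¹' {q | q.1 = true → q.2 = true} := rfl
    rw [h2]
    exact (isClosed_discrete _).preimage
      (((continuous_apply n).comp continuous_fst).prodMk ((continuous_apply n).comp continuous_snd))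
  have h2 : up K = Prod.snd '' {p : C × C | p.1 ∈ K ∧ Le p.1 p.2} := by
    ext A
    constructor
    · rintro ⟨x, hx, hxA⟩; exact ⟨(x, A), ⟨hx, hxA⟩, rfl⟩
    · rintro ⟨⟨x, A'⟩, ⟨hx, hxA⟩, rfl⟩; exact ⟨x, hx, hxA⟩
  rw [h2]
  exact (h1.isCompact.image continuous_snd).isClosed

lemma isClosed_N {K O : Set C} (hK : IsClopen K) (hO : IsOpen O) : IsClosed (N K O) := by
  rw [N, sdiff_eq]
  exact (isClosed_up hK.1).inter (isOpen_up (hK.2.inter hO)).isClosed_compl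

lemma N_anti {K O O' : Set C} (h : O ⊆ O') : N K O' ⊆ N K O := fun _ hA =>
  ⟨hA.1, fun h' => hA.2 (up_mono (inter_subset_inter_right K h) h')⟩

lemma continuous_co : Continuous co := by
  apply continuous_pi
  intro n
  exact (continuous_of_discreteTopology (f := fun b : Bool => !b)).comp (continuous_apply n)


/-! ### The hypothesis -/

/-- The statement `cov(M) = 𝔠`: the intersection of fewer than `𝔠` dense open subsets of the
Cantor space is nonempty. -/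
def CovMeager : Prop :=
  ∀ 𝒟 : Set (Set C), #𝒟 < 𝔠 → (∀ D ∈ 𝒟, IsOpen D ∧ Dense D) → (⋂₀ 𝒟).Nonempty

/-- `x` is infinite from `m` on -/
def Inf (m : ℕ) : Set C := {x | ∃ n, m ≤ n ∧ x n = true}

lemma isOpen_Inf (m : ℕ) : IsOpen (Inf m) := by
  rw [isOpen_iff_agree]
  rintro x ⟨n, hn, hx⟩
  exact ⟨n+1, fun y hy => ⟨n, hn, by rw [hy n (Nat.lt_succ_self n)]; exact hx⟩⟩

/-- `A` is good for the family `R` of open sets. -/
def Gd (R : Set (Set C)) (A : C) : Prop := ∀ O ∈ R, ∀ p, A ∉ N (cyl p) O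

lemma Gd.infinite {R : Set (Set C)} (hInf : ∀ m, Inf m ∈ R) {A : C} (hA : Gd R A) (m : ℕ) :
    ∃ n, m ≤ n ∧ A n = true := by
  by_contra hcon
  push Not at hcon
  apply hA (Inf m) (hInf m) (∅, 0)
  refine ⟨⟨A, by simp [cyl], Le.refl A⟩, ?_⟩
  rintro ⟨x, ⟨-, n, hn, hx⟩, hxA⟩
  exact hcon n hn (hxA n hx)

lemma exists_point (H : CovMeager) {R : Set (Set C)} (hR : #R < 𝔠) (hRo : ∀ O ∈ R, IsOpen O)
    (hInf : ∀ m, Inf m ∈ R) {A : C} (hA : Gd R A) {p : Finset ℕ × ℕ} (hAp : A ∈ up (cyl p)) :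
    ∃ x ∈ cyl p, Le x A ∧ ∀ O ∈ R, x ∈ O := by
  classical
  obtain ⟨x0, hx0, hx0A⟩ := hAp
  set P : ℕ → Prop := fun n => p.2 ≤ n ∧ A n = true with hP
  have hPinf : ({n | P n} : Set ℕ).Infinite := by
    rw [Set.infinite_iff_exists_gt]
    intro a
    obtain ⟨n, hn, hn'⟩ := hA.infinite hInf (max p.2 (a+1))
    exact ⟨n, ⟨le_trans (le_max_left _ _) hn, hn'⟩, lt_of_lt_of_le (Nat.lt_succ_self a) (le_trans (le_max_right _ _) hn)⟩
  set φ : C → C := fun z n => if n < p.2 then x0 n else (A n && z (Nat.count P n)) with hφ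
  have hφc : Continuous φ := by
    apply continuous_pi
    intro n
    by_cases h : n < p.2
    · simp only [hφ, h, if_true]; exact continuous_const
    · simp only [hφ, h, if_false]
      exact (continuous_of_discreteTopology (f := fun b : Bool => A n && b)).comp (continuous_apply _)
  have hφle : ∀ z, Le (φ z) A := by
    intro z n hn
    by_cases h : n < p.2
    · simp only [hφ, h, if_true] at hn; exact hx0A n hn
    · simp only [hφ, h, if_false, Bool.and_eq_true] at hn; exact hn.1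
  have hφcyl : ∀ z, φ z ∈ cyl p := by
    intro z i hi
    simp only [hφ, hi, if_true]; exact hx0 i hi
  have hdense : ∀ O ∈ R, Dense (φ ⁻¹' O) := by
    intro O hO
    rw [dense_iff_inter_open]
    rintro U hU ⟨z0, hz0⟩
    obtain ⟨j, hj⟩ := isOpen_iff_agree.1 hU z0 hz0
    -- choose a long cylinder
    set n1 := max p.2 (Nat.nth P j + 1) with hn1
    have hup : A ∈ up (cyl (code (φ z0) n1)) := ⟨φ z0, mem_cyl_code.2 fun _ _ => rfl, hφle z0⟩
    have h2 := hA O hO (code (φ z0) n1)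
    have h3 : A ∈ up (cyl (code (φ z0) n1) ∩ O) := by
      by_contra h; exact h2 ⟨hup, h⟩
    obtain ⟨x, ⟨hx1, hxO⟩, hxA⟩ := h3
    rw [mem_cyl_code] at hx1
    refine ⟨fun k => x (Nat.nth P k), hj _ ?_, ?_⟩
    · intro k hk
      have hnk : Nat.nth P k < n1 := by
        have : Nat.nth P k < Nat.nth P j := Nat.nth_strictMono hPinf hk
        exact lt_of_lt_of_le (Nat.lt_succ_of_lt this) (le_max_right _ _)
      have hPk : P (Nat.nth P k) := Nat.nth_mem_of_infinite hPinf k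
      change x (Nat.nth P k) = z0 k
      rw [hx1 _ hnk]
      simp only [hφ, not_lt.2 hPk.1, if_false, hPk.2, Bool.true_and]
      rw [Nat.count_nth_of_infinite hPinf]
    · rw [mem_preimage]
      convert hxO using 1
      funext n
      by_cases h : n < p.2
      · simp only [hφ, h, if_true]
        rw [hx1 n (lt_of_lt_of_le h (le_max_left _ _))]
        simp only [hφ, h, if_true]
      · simp only [hφ, h, if_false]
        by_cases hAn : A n = true
        · rw [hAn, Bool.true_and, Nat.nth_count ⟨not_lt.1 h, hAn⟩]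
        · have : x n = false := by
            by_contra hx
            exact hAn (hxA n (by simpa using hx))
          simp [hAn, this]
  obtain ⟨z, hz⟩ := H ((fun O => φ ⁻¹' O) '' R) (lt_of_le_of_lt mk_image_le hR) (by
    rintro _ ⟨O, hO, rfl⟩
    exact ⟨(hRo O hO).preimage hφc, hdense O hO⟩)
  exact ⟨φ z, hφcyl z, hφle z, fun O hO => hz _ ⟨O, hO, rfl⟩⟩


/-! ### Duality -/

/-- Duality between two families of open sets. -/
def Dual (R S : Set (Set C)) : Prop := ∀ A, ¬ Gd R A → Gd S (co A)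

lemma Dual.symm {R S : Set (Set C)} (h : Dual R S) : Dual S R := by
  intro A hA
  by_contra hcon
  have := h _ hcon
  rw [co_co] at this
  exact hA this

/-- The open set of points lying in some `W n` with `n ≥ m` and `B n = true`. -/
def OO (W : ℕ → Set C) (B : C) (m : ℕ) : Set C := {x | ∃ n, m ≤ n ∧ B n = true ∧ x ∈ W n}

/-- The open set of points lying in some `W n` with `m ≤ n < l`. -/
def OI (W : ℕ → Set C) (m l : ℕ) : Set C := {x | ∃ n, m ≤ n ∧ n < l ∧ x ∈ W n}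

lemma isOpen_OO {W : ℕ → Set C} (hW : ∀ n, IsOpen (W n)) (B : C) (m : ℕ) : IsOpen (OO W B m) := by
  have : OO W B m = ⋃ n, ⋃ (_ : m ≤ n), ⋃ (_ : B n = true), W n := by
    ext x; simp only [OO, mem_iUnion]
    constructor
    · rintro ⟨n, h1, h2, h3⟩; exact ⟨n, h1, h2, h3⟩
    · rintro ⟨n, h1, h2, h3⟩; exact ⟨n, h1, h2, h3⟩
  rw [this]
  exact isOpen_iUnion fun n => isOpen_iUnion fun _ => isOpen_iUnion fun _ => hW n

lemma isOpen_OI {W : ℕ → Set C} (hW : ∀ n, IsOpen (W n)) (m l : ℕ) : IsOpen (OI W m l) := by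
  have : OI W m l = ⋃ n, ⋃ (_ : m ≤ n), ⋃ (_ : n < l), W n := by
    ext x; simp only [OI, mem_iUnion]
    constructor
    · rintro ⟨n, h1, h2, h3⟩; exact ⟨n, h1, h2, h3⟩
    · rintro ⟨n, h1, h2, h3⟩; exact ⟨n, h1, h2, h3⟩
  rw [this]
  exact isOpen_iUnion fun n => isOpen_iUnion fun _ => isOpen_iUnion fun _ => hW n

/-- The compactness step. -/
lemma exists_l {W : ℕ → Set C} (hW : ∀ n, IsOpen (W n)) {V : Set C} (hV : IsOpen V)
    (p q : Finset ℕ × ℕ) (m : ℕ)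
    (h : ∀ A ∈ up (cyl p), co A ∈ N (cyl q) V → A ∈ up (cyl p ∩ OO W (fun _ => true) m)) :
    ∃ l, ∀ A ∈ up (cyl p), co A ∈ N (cyl q) V → A ∈ up (cyl p ∩ OI W m l) := by
  have hZ : IsCompact (up (cyl p) ∩ co ⁻¹' (N (cyl q) V)) :=
    ((isClosed_up (isClopen_cyl p).1).inter
      ((isClosed_N (isClopen_cyl q) hV).preimage continuous_co)).isCompact
  obtain ⟨l, hl⟩ := hZ.elim_directed_cover (fun l => up (cyl p ∩ OI W m l))
    (fun l => isOpen_up ((isClopen_cyl p).2.inter (isOpen_OI hW m l))) (by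
      rintro A ⟨hA1, hA2⟩
      obtain ⟨x, ⟨hx1, n, hn, -, hx2⟩, hxA⟩ := h A hA1 hA2
      exact mem_iUnion.2 ⟨n+1, x, ⟨hx1, n, hn, Nat.lt_succ_self n, hx2⟩, hxA⟩) (by
      apply Monotone.directed_le
      intro l l' hll
      apply up_mono
      rintro x ⟨hx1, n, hn, hn', hx⟩
      exact ⟨hx1, n, hn, lt_of_lt_of_le hn' hll, hx⟩)
  exact ⟨l, fun A hA1 hA2 => hl ⟨hA1, hA2⟩⟩

/-- Density of the sets used for choosing `B`. -/
lemma dense_intervals (l : ℕ → ℕ) (b : Bool) (j : ℕ) :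
    IsOpen {B : C | ∃ m, j ≤ m ∧ ∀ n, m ≤ n → n < l m → B n = b} ∧
    Dense {B : C | ∃ m, j ≤ m ∧ ∀ n, m ≤ n → n < l m → B n = b} := by
  constructor
  · rw [isOpen_iff_agree]
    rintro B ⟨m, hm, hB⟩
    exact ⟨l m, fun B' hB' => ⟨m, hm, fun n hn hn' => by rw [hB' n hn', hB n hn hn']⟩⟩
  · rw [dense_iff_inter_open]
    rintro U hU ⟨B, hB⟩
    obtain ⟨k, hk⟩ := isOpen_iff_agree.1 hU B hB
    refine ⟨fun n => if n < max j k then B n else b, hk _ ?_, max j k, le_max_left _ _, ?_⟩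
    · intro i hi
      simp only [lt_of_lt_of_le hi (le_max_right j k), if_true]
    · intro n hn _
      simp only [not_lt.2 hn, if_false]

lemma dense_points (S : Set ℕ) (hS : S.Infinite) (b : Bool) (j : ℕ) :
    IsOpen {B : C | ∃ n, j ≤ n ∧ n ∈ S ∧ B n = b} ∧
    Dense {B : C | ∃ n, j ≤ n ∧ n ∈ S ∧ B n = b} := by
  constructor
  · rw [isOpen_iff_agree]
    rintro B ⟨n, hn, hnS, hB⟩
    exact ⟨n + 1, fun B' hB' => ⟨n, hn, hnS, by rw [hB' n (Nat.lt_succ_self n), hB]⟩⟩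
  · rw [dense_iff_inter_open]
    rintro U hU ⟨B, hB⟩
    obtain ⟨k, hk⟩ := isOpen_iff_agree.1 hU B hB
    obtain ⟨n, hnS, hn⟩ := hS.exists_gt (max j k)
    refine ⟨fun i => if i < k then B i else b, hk _ ?_, n, ?_, hnS, ?_⟩
    · intro i hi
      simp only [hi, if_true]
    · exact (le_max_left _ _).trans hn.le
    · have : ¬ n < k := not_lt.2 ((le_max_right _ _).trans hn.le)
      simp only [this, if_false]

/-- The successor step: choice of the splitting set `B`. -/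
lemma exists_B (H : CovMeager) {R S : Set (Set C)} (hR : #R < 𝔠) (hRo : ∀ O ∈ R, IsOpen O)
    (hInf : ∀ m, Inf m ∈ R) (hS : #S < 𝔠) (hSo : ∀ O ∈ S, IsOpen O) (hD : Dual R S)
    {X : Set C} (hX : #X < 𝔠) {W : ℕ → Set C} (hW : ∀ n, IsOpen (W n))
    (hXW : ∀ x ∈ X, {n | x ∈ W n}.Infinite)
    (hinf : ∀ x, (∀ O ∈ R, x ∈ O) → {n | x ∈ W n}.Infinite) :
    ∃ B : C, (∀ x ∈ X, ∀ m, x ∈ OO W B m ∧ x ∈ OO W (co B) m) ∧
      Dual (R ∪ {O | ∃ m, O = OO W B m ∨ O = OO W (co B) m}) S := by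
  classical
  -- the compactness bounds
  have key : ∀ (p q : Finset ℕ × ℕ) (V : S) (m : ℕ), ∃ l, ∀ A ∈ up (cyl p),
      co A ∈ N (cyl q) V → A ∈ up (cyl p ∩ OI W m l) := by
    intro p q V m
    apply exists_l hW (hSo V V.2)
    intro A hA hcoA
    have hG : Gd R A := by
      by_contra hcon
      exact hD A hcon V V.2 q hcoA
    obtain ⟨x, hx, hxA, hxR⟩ := exists_point H hR hRo hInf hG hA
    obtain ⟨n, hn, hn'⟩ := (hinf x hxR).exists_gt m
    exact ⟨x, ⟨hx, n, hn'.le, rfl, hn⟩, hxA⟩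
  choose l hl using key
  -- the dense sets
  set 𝒟 : Set (Set C) :=
    (range fun t : (Finset ℕ × ℕ) × (Finset ℕ × ℕ) × S × Bool × ℕ =>
      {B : C | ∃ m, t.2.2.2.2 ≤ m ∧ ∀ n, m ≤ n → n < l t.1 t.2.1 t.2.2.1 m → B n = t.2.2.2.1}) ∪
    (range fun t : X × Bool × ℕ =>
      {B : C | ∃ n, t.2.2 ≤ n ∧ n ∈ {n | (t.1 : C) ∈ W n} ∧ B n = t.2.1}) with h𝒟
  have hcard : #𝒟 < 𝔠 := by
    have h0 : ℵ₀ < 𝔠 := aleph0_lt_continuum
    refine lt_of_le_of_lt (mk_union_le _ _) (add_lt_of_lt h0.le ?_ ?_)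
    · refine lt_of_le_of_lt mk_range_le ?_
      simp only [mk_prod, Cardinal.lift_id]
      have h1 : #(Finset ℕ × ℕ) < 𝔠 := lt_of_le_of_lt (mk_le_aleph0) h0
      have h2 : #(Finset ℕ) * #ℕ < 𝔠 := by
        have := h1
        rwa [mk_prod, Cardinal.lift_id, Cardinal.lift_id] at this
      refine mul_lt_of_lt h0.le h2 (mul_lt_of_lt h0.le h2 (mul_lt_of_lt h0.le hS
        (mul_lt_of_lt h0.le ?_ ?_)))
      · exact lt_of_le_of_lt mk_le_aleph0 h0
      · exact lt_of_le_of_lt mk_le_aleph0 h0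
    · refine lt_of_le_of_lt mk_range_le ?_
      simp only [mk_prod, Cardinal.lift_id]
      refine mul_lt_of_lt h0.le hX (mul_lt_of_lt h0.le ?_ ?_)
      · exact lt_of_le_of_lt mk_le_aleph0 h0
      · exact lt_of_le_of_lt mk_le_aleph0 h0
  obtain ⟨B, hB⟩ := H 𝒟 hcard (by
    rintro D (⟨t, rfl⟩ | ⟨t, rfl⟩)
    · exact dense_intervals _ _ _
    · exact dense_points _ (hXW t.1 t.1.2) _ _)
  have hB1 : ∀ (p q : Finset ℕ × ℕ) (V : S) (b : Bool) (j : ℕ),
      ∃ m, j ≤ m ∧ ∀ n, m ≤ n → n < l p q V m → B n = b := fun p q V b j =>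
    hB _ (Or.inl ⟨(p, q, V, b, j), rfl⟩)
  have hB2 : ∀ x ∈ X, ∀ (b : Bool) (j : ℕ), ∃ n, j ≤ n ∧ x ∈ W n ∧ B n = b := fun x hx b j =>
    hB _ (Or.inr ⟨(⟨x, hx⟩, b, j), rfl⟩)
  refine ⟨B, ?_, ?_⟩
  · intro x hx m
    constructor
    · obtain ⟨n, hn, hx', hb⟩ := hB2 x hx true m
      exact ⟨n, hn, hb, hx'⟩
    · obtain ⟨n, hn, hx', hb⟩ := hB2 x hx false m
      exact ⟨n, hn, by simp [co, hb], hx'⟩
  · -- duality
    apply Dual.symm
    intro A hA
    rw [Gd] at hA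
    push Not at hA
    obtain ⟨V, hV, q, hVq⟩ := hA
    rintro O (hO | ⟨m, hO⟩) p hp
    · have := hD.symm A (fun h => h V hV q hVq) O hO p
      exact this hp
    · have hcase : ∃ b : Bool, ∀ m' l', m ≤ m' → (∀ n, m' ≤ n → n < l' → B n = b) → OI W m' l' ⊆ O := by
        rcases hO with rfl | rfl
        · refine ⟨true, fun m' l' hmm h => ?_⟩
          rintro x ⟨n, hn, hn', hx⟩
          exact ⟨n, hmm.trans hn, h n hn hn', hx⟩
        · refine ⟨false, fun m' l' hmm h => ?_⟩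
          rintro x ⟨n, hn, hn', hx⟩
          exact ⟨n, hmm.trans hn, by simp [co, h n hn hn'], hx⟩
      obtain ⟨b, hb⟩ := hcase
      obtain ⟨m', hm', hBm'⟩ := hB1 p q ⟨V, hV⟩ b m
      have hsub := hb m' _ hm' hBm'
      have h1 := hl p q ⟨V, hV⟩ m' (co A) hp.1 (by rw [co_co]; exact hVq)
      exact hp.2 (up_mono (inter_subset_inter_right _ hsub) h1)


/-! ### States -/

/-- A state of the construction: requirements for `X`, requirements for `Y`, the points of `X`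
and the points of `Y` chosen so far. -/
abbrev St := (Set (Set C) × Set (Set C)) × (Set C × Set C)

/-- The invariant. -/
structure Inv (κ : Cardinal.{0}) (s : St) : Prop where
  cardR : #s.1.1 ≤ κ
  cardS : #s.1.2 ≤ κ
  cardX : #s.2.1 ≤ κ
  cardY : #s.2.2 ≤ κ
  openR : ∀ O ∈ s.1.1, IsOpen O
  openS : ∀ O ∈ s.1.2, IsOpen O
  infR : ∀ m, Inf m ∈ s.1.1
  infS : ∀ m, Inf m ∈ s.1.2
  dual : Dual s.1.1 s.1.2
  memX : ∀ x ∈ s.2.1, ∀ O ∈ s.1.1, x ∈ O
  memY : ∀ y ∈ s.2.2, ∀ O ∈ s.1.2, y ∈ O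

/-- The swapped state. -/
def swap (s : St) : St := ((s.1.2, s.1.1), (s.2.2, s.2.1))

lemma Inv.swap {κ : Cardinal.{0}} {s : St} (h : Inv κ s) : Inv κ (swap s) :=
  ⟨h.cardS, h.cardR, h.cardY, h.cardX, h.openS, h.openR, h.infS, h.infR, h.dual.symm, h.memY, h.memX⟩

lemma swap_le {s t : St} (h : s ≤ t) : swap s ≤ swap t :=
  ⟨⟨h.1.2, h.1.1⟩, ⟨h.2.2, h.2.1⟩⟩

/-- First half of a step: the task for the point `A`. -/
lemma step_A (H : CovMeager) {κ : Cardinal.{0}} (hκ : ℵ₀ ≤ κ) (hκc : κ < 𝔠) {s : St} (h : Inv κ s)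
    (A : C) : ∃ t, s ≤ t ∧ Inv κ t ∧ ((∃ x ∈ t.2.1, Le x A) ∨ (∃ y ∈ t.2.2, Le y (co A))) := by
  by_cases hA : Gd s.1.1 A
  · obtain ⟨x, -, hxA, hx⟩ := exists_point H (lt_of_le_of_lt h.cardR hκc) h.openR h.infR hA
      (p := (∅, 0)) ⟨A, by simp [cyl], Le.refl A⟩
    refine ⟨(s.1, (insert x s.2.1, s.2.2)), ⟨le_rfl, ⟨subset_insert _ _, le_rfl⟩⟩,
      ⟨h.cardR, h.cardS, ?_, h.cardY, h.openR, h.openS, h.infR, h.infS, h.dual, ?_, h.memY⟩, ?_⟩
    · exact (mk_insert_le).trans (add_le_of_le hκ h.cardX (one_le_aleph0.trans hκ))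
    · rintro z (rfl | hz) O hO
      · exact hx O hO
      · exact h.memX z hz O hO
    · exact Or.inl ⟨x, mem_insert _ _, hxA⟩
  · have hA' := h.dual A hA
    obtain ⟨x, -, hxA, hx⟩ := exists_point H (lt_of_le_of_lt h.cardS hκc) h.openS h.infS hA'
      (p := (∅, 0)) ⟨co A, by simp [cyl], Le.refl _⟩
    refine ⟨(s.1, (s.2.1, insert x s.2.2)), ⟨le_rfl, ⟨le_rfl, subset_insert _ _⟩⟩,
      ⟨h.cardR, h.cardS, h.cardX, ?_, h.openR, h.openS, h.infR, h.infS, h.dual, h.memX, ?_⟩, ?_⟩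
    · exact (mk_insert_le).trans (add_le_of_le hκ h.cardY (one_le_aleph0.trans hκ))
    · rintro z (rfl | hz) O hO
      · exact hx O hO
      · exact h.memY z hz O hO
    · exact Or.inr ⟨x, mem_insert _ _, hxA⟩

/-- Second half of a step: the task for the sequence `W` of open sets, on the `X` side. -/
lemma step_W (H : CovMeager) {κ : Cardinal.{0}} (hκ : ℵ₀ ≤ κ) (hκc : κ < 𝔠) {s : St} (h : Inv κ s)
    {W : ℕ → Set C} (hW : ∀ n, IsOpen (W n)) : ∃ t, s ≤ t ∧ Inv κ t ∧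
      ((∃ x ∈ t.2.1, ¬ {n | x ∈ W n}.Infinite) ∨
        ∃ B : C, ∀ m, OO W B m ∈ t.1.1 ∧ OO W (co B) m ∈ t.1.1) := by
  by_cases hcase : ∃ x, (∀ O ∈ s.1.1, x ∈ O) ∧ ¬ {n | x ∈ W n}.Infinite
  · obtain ⟨x, hx, hxW⟩ := hcase
    refine ⟨(s.1, (insert x s.2.1, s.2.2)), ⟨le_rfl, ⟨subset_insert _ _, le_rfl⟩⟩,
      ⟨h.cardR, h.cardS, ?_, h.cardY, h.openR, h.openS, h.infR, h.infS, h.dual, ?_, h.memY⟩, ?_⟩
    · exact (mk_insert_le).trans (add_le_of_le hκ h.cardX (one_le_aleph0.trans hκ))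
    · rintro z (rfl | hz) O hO
      · exact hx O hO
      · exact h.memX z hz O hO
    · exact Or.inl ⟨x, mem_insert _ _, hxW⟩
  · push Not at hcase
    obtain ⟨B, hB1, hB2⟩ := exists_B H (lt_of_le_of_lt h.cardR hκc) h.openR h.infR
      (lt_of_le_of_lt h.cardS hκc) h.openS h.dual (lt_of_le_of_lt h.cardX hκc) hW
      (fun x hx => hcase x (h.memX x hx)) hcase
    refine ⟨((s.1.1 ∪ {O | ∃ m, O = OO W B m ∨ O = OO W (co B) m}, s.1.2), s.2),
      ⟨⟨subset_union_left, le_rfl⟩, le_rfl⟩,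
      ⟨?_, h.cardS, h.cardX, h.cardY, ?_, h.openS, fun m => Or.inl (h.infR m), h.infS, hB2, ?_,
        h.memY⟩, Or.inr ⟨B, fun m => ⟨Or.inr ⟨m, Or.inl rfl⟩, Or.inr ⟨m, Or.inr rfl⟩⟩⟩⟩
    · refine (mk_union_le _ _).trans (add_le_of_le hκ h.cardR (le_trans ?_ hκ))
      rw [le_aleph0_iff_set_countable]
      have : {O | ∃ m, O = OO W B m ∨ O = OO W (co B) m} ⊆
          range (fun m => OO W B m) ∪ range (fun m => OO W (co B) m) := by
        rintro O ⟨m, rfl | rfl⟩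
        · exact Or.inl ⟨m, rfl⟩
        · exact Or.inr ⟨m, rfl⟩
      exact ((countable_range _).union (countable_range _)).mono this
    · rintro O (hO | ⟨m, rfl | rfl⟩)
      · exact h.openR O hO
      · exact isOpen_OO hW _ _
      · exact isOpen_OO hW _ _
    · rintro x hx O (hO | ⟨m, rfl | rfl⟩)
      · exact h.memX x hx O hO
      · exact (hB1 x hx m).1
      · exact (hB1 x hx m).2

/-- A task. -/
abbrev Task := C × (ℕ → Set (Finset ℕ × ℕ))

/-- The sequence of open sets coded by a task. -/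
def Wof (T : ℕ → Set (Finset ℕ × ℕ)) (n : ℕ) : Set C := ⋃ p ∈ T n, cyl p

lemma isOpen_Wof (T : ℕ → Set (Finset ℕ × ℕ)) (n : ℕ) : IsOpen (Wof T n) :=
  isOpen_biUnion fun p _ => (isClopen_cyl p).2

lemma exists_Wof {W : ℕ → Set C} (hW : ∀ n, IsOpen (W n)) : ∃ T, Wof T = W := by
  refine ⟨fun n => {p | cyl p ⊆ W n}, ?_⟩
  funext n
  apply subset_antisymm
  · exact iUnion₂_subset fun p hp => hp
  · intro x hx
    obtain ⟨k, hk, hk'⟩ := exists_cyl_subset (hW n) hx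
    exact mem_iUnion₂.2 ⟨code x k, hk', hk⟩

/-- A state has handled a task. -/
structure Handled (T : Task) (t : St) : Prop where
  A : (∃ x ∈ t.2.1, Le x T.1) ∨ (∃ y ∈ t.2.2, Le y (co T.1))
  X : (∃ x ∈ t.2.1, ¬ {n | x ∈ Wof T.2 n}.Infinite) ∨
        ∃ B : C, ∀ m, OO (Wof T.2) B m ∈ t.1.1 ∧ OO (Wof T.2) (co B) m ∈ t.1.1
  Y : (∃ x ∈ t.2.2, ¬ {n | x ∈ Wof T.2 n}.Infinite) ∨
        ∃ B : C, ∀ m, OO (Wof T.2) B m ∈ t.1.2 ∧ OO (Wof T.2) (co B) m ∈ t.1.2

lemma step (H : CovMeager) {κ : Cardinal.{0}} (hκ : ℵ₀ ≤ κ) (hκc : κ < 𝔠) {s : St} (h : Inv κ s)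
    (T : Task) : ∃ t, s ≤ t ∧ Inv κ t ∧ Handled T t := by
  obtain ⟨s1, hs1, h1, hA⟩ := step_A H hκ hκc h T.1
  obtain ⟨s2, hs2, h2, hX⟩ := step_W H hκ hκc h1 (isOpen_Wof T.2)
  obtain ⟨s3, hs3, h3, hY⟩ := step_W H hκ hκc h2.swap (isOpen_Wof T.2)
  have hs3' : s2 ≤ swap s3 := swap_le hs3
  refine ⟨swap s3, hs1.trans (hs2.trans hs3'), h3.swap, ⟨?_, ?_, hY⟩⟩
  · rcases hA with ⟨x, hx, hx'⟩ | ⟨y, hy, hy'⟩
    · exact Or.inl ⟨x, (hs2.trans hs3').2.1 hx, hx'⟩
    · exact Or.inr ⟨y, (hs2.trans hs3').2.2 hy, hy'⟩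
  · rcases hX with ⟨x, hx, hx'⟩ | ⟨B, hB⟩
    · exact Or.inl ⟨x, hs3'.2.1 hx, hx'⟩
    · exact Or.inr ⟨B, fun m => ⟨hs3'.1.1 (hB m).1, hs3'.1.1 (hB m).2⟩⟩


/-! ### The transfinite recursion -/

lemma mem_sSup_R {𝒮 : Set St} {O : Set C} : O ∈ (sSup 𝒮).1.1 ↔ ∃ s ∈ 𝒮, O ∈ s.1.1 := by
  simp [Prod.fst_sSup, Set.sSup_eq_sUnion]

lemma mem_sSup_S {𝒮 : Set St} {O : Set C} : O ∈ (sSup 𝒮).1.2 ↔ ∃ s ∈ 𝒮, O ∈ s.1.2 := by
  simp [Prod.fst_sSup, Prod.snd_sSup, Set.sSup_eq_sUnion]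

lemma mem_sSup_X {𝒮 : Set St} {x : C} : x ∈ (sSup 𝒮).2.1 ↔ ∃ s ∈ 𝒮, x ∈ s.2.1 := by
  rw [Prod.snd_sSup, Prod.fst_sSup, Set.sSup_eq_sUnion, image_image]
  constructor
  · rintro ⟨_, ⟨s, hs, rfl⟩, hx⟩; exact ⟨s, hs, hx⟩
  · rintro ⟨s, hs, hx⟩; exact ⟨_, ⟨s, hs, rfl⟩, hx⟩

lemma mem_sSup_Y {𝒮 : Set St} {x : C} : x ∈ (sSup 𝒮).2.2 ↔ ∃ s ∈ 𝒮, x ∈ s.2.2 := by
  rw [Prod.snd_sSup, Prod.snd_sSup, Set.sSup_eq_sUnion, image_image]
  constructor
  · rintro ⟨_, ⟨s, hs, rfl⟩, hx⟩; exact ⟨s, hs, hx⟩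
  · rintro ⟨s, hs, hx⟩; exact ⟨_, ⟨s, hs, rfl⟩, hx⟩

lemma card_aux {κ : Cardinal.{0}} (hκ : ℵ₀ ≤ κ) {α : Type} {𝒮 : Set St} (hcard : #𝒮 ≤ κ)
    (f : St → Set α) (hf : ∀ s ∈ 𝒮, #(f s) ≤ κ) : #{x : α | ∃ s ∈ 𝒮, x ∈ f s} ≤ κ := by
  have h1 : {x : α | ∃ s ∈ 𝒮, x ∈ f s} = ⋃ s : 𝒮, f s := by
    ext x; simp
  rw [h1]
  refine (mk_iUnion_le _).trans ?_
  refine (mul_le_mul' hcard (ciSup_le' fun s : 𝒮 => hf s.1 s.2)).trans ?_
  exact (mul_eq_self hκ).le

lemma Inv.sSup {κ : Cardinal.{0}} (hκ : ℵ₀ ≤ κ) {𝒮 : Set St} (hne : 𝒮.Nonempty)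
    (hdir : DirectedOn (· ≤ ·) 𝒮) (hcard : #𝒮 ≤ κ) (h : ∀ s ∈ 𝒮, Inv κ s) : Inv κ (sSup 𝒮) := by
  obtain ⟨s0, hs0⟩ := hne
  refine ⟨?_, ?_, ?_, ?_, ?_, ?_, ?_, ?_, ?_, ?_, ?_⟩
  · have := card_aux hκ hcard (fun s => s.1.1) (fun s hs => (h s hs).cardR)
    convert this using 3
    ext O; exact mem_sSup_R
  · have := card_aux hκ hcard (fun s => s.1.2) (fun s hs => (h s hs).cardS)
    convert this using 3
    ext O; exact mem_sSup_S
  · have := card_aux hκ hcard (fun s => s.2.1) (fun s hs => (h s hs).cardX)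
    convert this using 3
    ext O; exact mem_sSup_X
  · have := card_aux hκ hcard (fun s => s.2.2) (fun s hs => (h s hs).cardY)
    convert this using 3
    ext O; exact mem_sSup_Y
  · intro O hO
    obtain ⟨s, hs, hO⟩ := mem_sSup_R.1 hO
    exact (h s hs).openR O hO
  · intro O hO
    obtain ⟨s, hs, hO⟩ := mem_sSup_S.1 hO
    exact (h s hs).openS O hO
  · intro m
    exact mem_sSup_R.2 ⟨s0, hs0, (h s0 hs0).infR m⟩
  · intro m
    exact mem_sSup_S.2 ⟨s0, hs0, (h s0 hs0).infS m⟩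
  · intro A hA
    rw [Gd] at hA
    push Not at hA
    obtain ⟨O, hO, p, hOp⟩ := hA
    obtain ⟨s, hs, hOs⟩ := mem_sSup_R.1 hO
    intro V hV q
    obtain ⟨t, ht, hVt⟩ := mem_sSup_S.1 hV
    obtain ⟨u, hu, hsu, htu⟩ := hdir s hs t ht
    exact (h u hu).dual A (fun hg => hg O (hsu.1.1 hOs) p hOp) V (htu.1.2 hVt) q
  · intro x hx O hO
    obtain ⟨s, hs, hxs⟩ := mem_sSup_X.1 hx
    obtain ⟨t, ht, hOt⟩ := mem_sSup_R.1 hO
    obtain ⟨u, hu, hsu, htu⟩ := hdir s hs t ht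
    exact (h u hu).memX x (hsu.2.1 hxs) O (htu.1.1 hOt)
  · intro x hx O hO
    obtain ⟨s, hs, hxs⟩ := mem_sSup_Y.1 hx
    obtain ⟨t, ht, hOt⟩ := mem_sSup_S.1 hO
    obtain ⟨u, hu, hsu, htu⟩ := hdir s hs t ht
    exact (h u hu).memY x (hsu.2.2 hxs) O (htu.1.2 hOt)

lemma Inv.mono {κ κ' : Cardinal.{0}} (hκ : κ ≤ κ') {s : St} (h : Inv κ s) : Inv κ' s :=
  ⟨h.cardR.trans hκ, h.cardS.trans hκ, h.cardX.trans hκ, h.cardY.trans hκ, h.openR, h.openS,
    h.infR, h.infS, h.dual, h.memX, h.memY⟩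

/-- The initial state. -/
def s0 : St := ((range Inf, range Inf), (range (fun m n => decide (n ≠ m)), ∅))

lemma Inv_s0 : Inv ℵ₀ s0 := by
  have hcnt : (range Inf).Countable := countable_range _
  refine ⟨le_aleph0_iff_set_countable.2 hcnt, le_aleph0_iff_set_countable.2 hcnt,
    le_aleph0_iff_set_countable.2 (countable_range _), by simp [s0], ?_, ?_, fun m => ⟨m, rfl⟩,
    fun m => ⟨m, rfl⟩, ?_, ?_, by simp [s0]⟩
  · rintro _ ⟨m, rfl⟩; exact isOpen_Inf m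
  · rintro _ ⟨m, rfl⟩; exact isOpen_Inf m
  · -- duality: `A` or its complement is infinite
    have key : ∀ A : C, (∀ m, ∃ n, m ≤ n ∧ A n = true) → Gd (range Inf) A := by
      rintro A hA _ ⟨m, rfl⟩ p ⟨⟨x, hx, hxA⟩, hA2⟩
      apply hA2
      obtain ⟨n, hn, hAn⟩ := hA (max m p.2)
      refine ⟨fun i => if i < p.2 then x i else A i, ⟨?_, n, (le_max_left _ _).trans hn, ?_⟩, ?_⟩
      · intro i hi
        simp only [hi, if_true]
        exact hx i hi
      · simp only [not_lt.2 ((le_max_right _ _).trans hn), if_false, hAn]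
      · intro i hi
        by_cases h : i < p.2
        · simp only [h, if_true] at hi; exact hxA i hi
        · simpa [h] using hi
    intro A hA
    apply key
    intro m
    by_contra hcon
    push Not at hcon
    apply hA
    apply key
    intro m'
    refine ⟨max m m', le_max_right _ _, ?_⟩
    have := hcon (max m m') (le_max_left _ _)
    simpa [co] using this
  · rintro _ ⟨m, rfl⟩ _ ⟨m', rfl⟩
    refine ⟨max m' (m + 1), le_max_left _ _, ?_⟩
    have : max m' (m + 1) ≠ m := by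
      have := le_max_right m' (m+1)
      omega
    simpa using this

/-- The index set of the recursion. -/
abbrev Idx : Type := (Cardinal.ord 𝔠).ToType

/-- The size bound at stage `a`. -/
noncomputable def kap (a : Idx) : Cardinal.{0} := max ℵ₀ #(Iio a)

lemma kap_lt (a : Idx) : kap a < 𝔠 := by
  refine max_lt aleph0_lt_continuum ?_
  have h := mk_Iio_lt a (by rw [mk_ord_toType]; exact (Ordinal.type_toType _).symm)
  rwa [mk_ord_toType] at h

open Classical in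
/-- The step function. -/
noncomputable def stp (T : Idx → Task) (a : Idx) (s : St) : St :=
  if h : ∃ t, s ≤ t ∧ Inv (kap a) t ∧ Handled (T a) t then h.choose else s

lemma le_stp (T : Idx → Task) (a : Idx) (s : St) : s ≤ stp T a s := by
  unfold stp
  split_ifs with h
  · exact h.choose_spec.1
  · exact le_rfl

/-- The recursion. -/
noncomputable def Fs (T : Idx → Task) : Idx → St :=
  WellFounded.fix wellFounded_lt
    (fun a ih => stp T a (sSup (insert s0 (range fun b : Iio a => ih b.1 b.2))))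

lemma Fs_eq (T : Idx → Task) (a : Idx) :
    Fs T a = stp T a (sSup (insert s0 (range fun b : Iio a => Fs T b.1))) := by
  rw [Fs, WellFounded.fix_eq]

lemma Fs_mono (T : Idx → Task) : Monotone (Fs T) := by
  intro b a hba
  rcases hba.eq_or_lt with rfl | h
  · exact le_rfl
  · rw [Fs_eq T a]
    refine le_trans ?_ (le_stp T a _)
    exact le_sSup (Or.inr ⟨⟨b, h⟩, rfl⟩)

lemma s0_le_Fs (T : Idx → Task) (a : Idx) : s0 ≤ Fs T a := by
  rw [Fs_eq T a]
  refine le_trans ?_ (le_stp T a _)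
  exact le_sSup (Or.inl rfl)

lemma Fs_spec (H : CovMeager) (T : Idx → Task) (a : Idx) :
    Inv (kap a) (Fs T a) ∧ Handled (T a) (Fs T a) := by
  induction a using WellFoundedLT.induction with
  | _ a ih =>
    have hκ : ℵ₀ ≤ kap a := le_max_left _ _
    have h1 : Inv (kap a) (sSup (insert s0 (range fun b : Iio a => Fs T b.1))) := by
      apply Inv.sSup hκ ⟨s0, Or.inl rfl⟩
      · rintro s (rfl | ⟨b, rfl⟩) t (rfl | ⟨c, rfl⟩)
        · exact ⟨_, Or.inl rfl, le_rfl, le_rfl⟩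
        · exact ⟨_, Or.inr ⟨c, rfl⟩, s0_le_Fs T c, le_rfl⟩
        · exact ⟨_, Or.inr ⟨b, rfl⟩, le_rfl, s0_le_Fs T b⟩
        · rcases le_total (b : Idx) c with hbc | hbc
          · exact ⟨_, Or.inr ⟨c, rfl⟩, Fs_mono T hbc, le_rfl⟩
          · exact ⟨_, Or.inr ⟨b, rfl⟩, le_rfl, Fs_mono T hbc⟩
      · refine (mk_insert_le).trans (add_le_of_le hκ ?_ (one_le_aleph0.trans hκ))
        exact mk_range_le.trans (le_max_right _ _)
      · rintro s (rfl | ⟨b, rfl⟩)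
        · exact Inv_s0.mono hκ
        · exact (ih b b.2).1.mono (max_le_max le_rfl (mk_le_mk_of_subset (Iio_subset_Iio b.2.le)))
    have h2 : ∃ t, (sSup (insert s0 (range fun b : Iio a => Fs T b.1))) ≤ t ∧
        Inv (kap a) t ∧ Handled (T a) t := step H hκ (kap_lt a) h1 (T a)
    rw [Fs_eq T a]
    unfold stp
    rw [dif_pos h2]
    exact h2.choose_spec.2

/-- The main combinatorial theorem, in Cantor space. -/
theorem main_cantor (H : CovMeager) : ∃ X Y : Set C,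
    (∀ m, (fun n => decide (n ≠ m)) ∈ X) ∧
    (∀ x ∈ X ∪ Y, {n | x n = true}.Infinite) ∧
    (∀ W : ℕ → Set C, (∀ n, IsOpen (W n)) → (∀ x ∈ X, {n | x ∈ W n}.Infinite) →
      ∃ B : C, ∀ x ∈ X, {n | x ∈ W n ∧ B n = true}.Infinite ∧ {n | x ∈ W n ∧ B n = false}.Infinite) ∧
    (∀ W : ℕ → Set C, (∀ n, IsOpen (W n)) → (∀ x ∈ Y, {n | x ∈ W n}.Infinite) →
      ∃ B : C, ∀ x ∈ Y, {n | x ∈ W n ∧ B n = true}.Infinite ∧ {n | x ∈ W n ∧ B n = false}.Infinite) ∧
    (∀ A : C, ∃ x ∈ X ∪ Y, Le x A ∨ Le x (co A)) := by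
  -- enumeration of the tasks
  have hcard : #Task ≤ #Idx := by
    rw [mk_ord_toType]
    have h1 : #(Set (Finset ℕ × ℕ)) = 𝔠 := by
      rw [mk_set, mk_prod, Cardinal.lift_id, Cardinal.lift_id]
      simp
    have h2 : #(ℕ → Set (Finset ℕ × ℕ)) = 𝔠 := by
      rw [← power_def, h1]; simp
    have h3 : #C = 𝔠 := by
      change #(ℕ → Bool) = 𝔠
      rw [← power_def]; simp
    rw [mk_prod, h2, h3]
    simp
  have hne : Nonempty Task := ⟨(fun _ => true, fun _ => ∅)⟩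
  obtain ⟨g⟩ : Nonempty (Task ↪ Idx) := by
    rwa [← Cardinal.le_def]
  set T : Idx → Task := Function.invFun g with hT
  have hTs : Function.Surjective T := Function.invFun_surjective g.injective
  set X : Set C := {x | ∃ a, x ∈ (Fs T a).2.1} with hX
  set Y : Set C := {x | ∃ a, x ∈ (Fs T a).2.2} with hY
  have hXR : ∀ x ∈ X, ∀ a, ∀ O ∈ (Fs T a).1.1, x ∈ O := by
    rintro x ⟨b, hb⟩ a O hO
    rcases le_total a b with hab | hab
    · exact (Fs_spec H T b).1.memX x hb O ((Fs_mono T hab).1.1 hO)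
    · exact (Fs_spec H T a).1.memX x ((Fs_mono T hab).2.1 hb) O hO
  have hYS : ∀ x ∈ Y, ∀ a, ∀ O ∈ (Fs T a).1.2, x ∈ O := by
    rintro x ⟨b, hb⟩ a O hO
    rcases le_total a b with hab | hab
    · exact (Fs_spec H T b).1.memY x hb O ((Fs_mono T hab).1.2 hO)
    · exact (Fs_spec H T a).1.memY x ((Fs_mono T hab).2.2 hb) O hO
  obtain ⟨a0⟩ : Nonempty Idx := by
    rw [← mk_ne_zero_iff, mk_ord_toType]
    exact (lt_of_lt_of_le aleph0_pos aleph0_le_continuum).ne'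
  have hinf_of : ∀ (x : C) (W : ℕ → Set C) (B : C), (∀ m, x ∈ OO W B m) →
      {n | x ∈ W n ∧ B n = true}.Infinite := by
    intro x W B h
    rw [Set.infinite_iff_exists_gt]
    intro m
    obtain ⟨n, hn, hB, hx⟩ := h (m + 1)
    exact ⟨n, ⟨hx, hB⟩, hn⟩
  have hinf_of' : ∀ (x : C) (W : ℕ → Set C) (B : C), (∀ m, x ∈ OO W (co B) m) →
      {n | x ∈ W n ∧ B n = false}.Infinite := by
    intro x W B h
    rw [Set.infinite_iff_exists_gt]
    intro m
    obtain ⟨n, hn, hB, hx⟩ := h (m + 1)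
    exact ⟨n, ⟨hx, by simpa [co] using hB⟩, hn⟩
  refine ⟨X, Y, ?_, ?_, ?_, ?_, ?_⟩
  · intro m
    exact ⟨a0, (s0_le_Fs T a0).2.1 ⟨m, rfl⟩⟩
  · rintro x (hx | hx)
    · rw [Set.infinite_iff_exists_gt]
      intro m
      obtain ⟨n, hn, hxn⟩ := hXR x hx a0 _ ((Fs_spec H T a0).1.infR (m + 1))
      exact ⟨n, hxn, hn⟩
    · rw [Set.infinite_iff_exists_gt]
      intro m
      obtain ⟨n, hn, hxn⟩ := hYS x hx a0 _ ((Fs_spec H T a0).1.infS (m + 1))
      exact ⟨n, hxn, hn⟩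
  · intro W hW hlarge
    obtain ⟨c, hc⟩ := exists_Wof hW
    obtain ⟨a, ha⟩ := hTs (fun _ => true, c)
    have hh := (Fs_spec H T a).2.X
    rw [ha] at hh
    simp only [hc] at hh
    rcases hh with ⟨x, hx, hxW⟩ | ⟨B, hB⟩
    · exact absurd (hlarge x ⟨a, hx⟩) hxW
    · exact ⟨B, fun x hx => ⟨hinf_of x W B fun m => hXR x hx a _ (hB m).1,
        hinf_of' x W B fun m => hXR x hx a _ (hB m).2⟩⟩
  · intro W hW hlarge
    obtain ⟨c, hc⟩ := exists_Wof hW
    obtain ⟨a, ha⟩ := hTs (fun _ => true, c)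
    have hh := (Fs_spec H T a).2.Y
    rw [ha] at hh
    simp only [hc] at hh
    rcases hh with ⟨x, hx, hxW⟩ | ⟨B, hB⟩
    · exact absurd (hlarge x ⟨a, hx⟩) hxW
    · exact ⟨B, fun x hx => ⟨hinf_of x W B fun m => hYS x hx a _ (hB m).1,
        hinf_of' x W B fun m => hYS x hx a _ (hB m).2⟩⟩
  · intro A
    obtain ⟨a, ha⟩ := hTs (A, fun _ => ∅)
    have hh := (Fs_spec H T a).2.A
    rw [ha] at hh
    rcases hh with ⟨x, hx, hxA⟩ | ⟨x, hx, hxA⟩
    · exact ⟨x, Or.inl ⟨a, hx⟩, Or.inl hxA⟩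
    · exact ⟨x, Or.inr ⟨a, hx⟩, Or.inr hxA⟩


/-! ### Large covers and the property Split(Λ,Λ) -/

/-- `𝒰` is a large cover of the space `Z`: a family of open subsets of `Z` with union `Z`, not
containing `Z` itself, such that every point of `Z` lies in infinitely many members. -/
def IsLargeCover {Z : Type} [TopologicalSpace Z] (𝒰 : Set (Set Z)) : Prop :=
  (∀ U ∈ 𝒰, IsOpen U) ∧ ⋃₀ 𝒰 = Set.univ ∧ Set.univ ∉ 𝒰 ∧ ∀ x : Z, {U | U ∈ 𝒰 ∧ x ∈ U}.Infinite

/-- `Split(Λ,Λ)`: every large cover contains two disjoint large covers. -/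
def SplitLL (Z : Type) [TopologicalSpace Z] : Prop :=
  ∀ 𝒰 : Set (Set Z), IsLargeCover 𝒰 → ∃ 𝒱 𝒲 : Set (Set Z), 𝒱 ⊆ 𝒰 ∧ 𝒲 ⊆ 𝒰 ∧ Disjoint 𝒱 𝒲 ∧
    IsLargeCover 𝒱 ∧ IsLargeCover 𝒲

lemma IsLargeCover.of_subset {Z : Type} [TopologicalSpace Z] {𝒰 𝒱 : Set (Set Z)}
    (h : IsLargeCover 𝒰) (hs : 𝒱 ⊆ 𝒰) (hx : ∀ x : Z, {U | U ∈ 𝒱 ∧ x ∈ U}.Infinite) :
    IsLargeCover 𝒱 := by
  refine ⟨fun U hU => h.1 U (hs hU), ?_, fun hU => h.2.2.1 (hs hU), hx⟩
  rw [eq_univ_iff_forall]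
  intro x
  obtain ⟨U, hU, hxU⟩ := (hx x).nonempty
  exact ⟨U, hU, hxU⟩

lemma exists_countable_large {Z : Type} [TopologicalSpace Z] [SecondCountableTopology Z]
    {𝒰 : Set (Set Z)} (hU : ∀ U ∈ 𝒰, IsOpen U) (hx : ∀ x : Z, {U | U ∈ 𝒰 ∧ x ∈ U}.Infinite) :
    ∃ 𝒱 ⊆ 𝒰, 𝒱.Countable ∧ ∀ x : Z, {U | U ∈ 𝒱 ∧ x ∈ U}.Infinite := by
  classical
  have key : ∀ S : Set (Set Z), ∃ T : Set (Set Z), S ⊆ 𝒰 → T.Countable ∧ T ⊆ S ∧ ⋃₀ T = ⋃₀ S := by
    intro S
    by_cases hS : S ⊆ 𝒰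
    · obtain ⟨T, h1, h2, h3⟩ := TopologicalSpace.isOpen_sUnion_countable S (fun s hs => hU s (hS hs))
      exact ⟨T, fun _ => ⟨h1, h2, h3⟩⟩
    · exact ⟨∅, fun h => absurd h hS⟩
  choose T hT using key
  let acc : ℕ → Set (Set Z) := fun n => Nat.rec ∅ (fun _ a => a ∪ T (𝒰 \ a)) n
  have hacc0 : acc 0 = ∅ := rfl
  have hacc1 : ∀ n, acc (n + 1) = acc n ∪ T (𝒰 \ acc n) := fun n => rfl
  have hTn : ∀ n, (T (𝒰 \ acc n)).Countable ∧ T (𝒰 \ acc n) ⊆ 𝒰 \ acc n ∧
      ⋃₀ T (𝒰 \ acc n) = ⋃₀ (𝒰 \ acc n) := fun n => hT _ sdiff_subset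
  have hsub : ∀ n, acc n ⊆ 𝒰 := by
    intro n
    induction n with
    | zero => rw [hacc0]; exact empty_subset _
    | succ n ih => rw [hacc1]; exact union_subset ih ((hTn n).2.1.trans sdiff_subset)
  have hcnt : ∀ n, (acc n).Countable := by
    intro n
    induction n with
    | zero => rw [hacc0]; exact countable_empty
    | succ n ih => rw [hacc1]; exact ih.union (hTn n).1
  have hmono : Monotone acc := monotone_nat_of_le_succ fun n => by
    rw [hacc1]; exact subset_union_left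
  refine ⟨⋃ n, acc n, iUnion_subset hsub, countable_iUnion hcnt, ?_⟩
  intro x
  by_cases h : ∃ n, x ∉ ⋃₀ (𝒰 \ acc n)
  · obtain ⟨n, hn⟩ := h
    refine (hx x).mono ?_
    rintro U ⟨hU1, hU2⟩
    refine ⟨mem_iUnion.2 ⟨n, ?_⟩, hU2⟩
    by_contra hcon
    exact hn ⟨U, ⟨hU1, hcon⟩, hU2⟩
  · push Not at h
    have : ∀ n, ∃ U, U ∈ T (𝒰 \ acc n) ∧ x ∈ U := by
      intro n
      have := h n
      rw [← (hTn n).2.2] at this
      exact this
    choose u hu hxu using this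
    have hinj : Function.Injective u := by
      have hlt : ∀ a b, a < b → u a ≠ u b := by
        intro a b hab heq
        have h1 : u a ∈ acc b := hmono (Nat.succ_le_of_lt hab) (by
          rw [Nat.succ_eq_add_one, hacc1]; exact Or.inr (hu a))
        have h2 := (hTn b).2.1 (hu b)
        rw [← heq] at h2
        exact h2.2 h1
      intro a b hab
      rcases lt_trichotomy a b with h' | h' | h'
      · exact absurd hab (hlt a b h')
      · exact h'
      · exact absurd hab.symm (hlt b a h')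
    refine Set.Infinite.mono ?_ (Set.infinite_range_of_injective hinj)
    rintro _ ⟨n, rfl⟩
    exact ⟨mem_iUnion.2 ⟨n + 1, by rw [hacc1]; exact Or.inr (hu n)⟩, hxu n⟩

/-- The embedding of the Cantor space into the real line. -/
noncomputable def emb (z : C) : ℝ := (cantorSetHomeomorphNatToBool.symm z : ℝ)

lemma isEmbedding_emb : IsEmbedding emb :=
  IsEmbedding.subtypeVal.comp cantorSetHomeomorphNatToBool.symm.isEmbedding

lemma splitLL_image {X : Set C}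
    (h : ∀ W : ℕ → Set C, (∀ n, IsOpen (W n)) → (∀ x ∈ X, {n | x ∈ W n}.Infinite) →
      ∃ B : C, ∀ x ∈ X, {n | x ∈ W n ∧ B n = true}.Infinite ∧
        {n | x ∈ W n ∧ B n = false}.Infinite) :
    SplitLL (emb '' X) := by
  intro 𝒰 h𝒰
  rcases isEmpty_or_nonempty (emb '' X) with hemp | ⟨⟨x0⟩⟩
  · refine ⟨∅, ∅, empty_subset _, empty_subset _, disjoint_bot_left, ?_, ?_⟩
    · exact h𝒰.of_subset (empty_subset _) (fun x => (hemp.false x).elim)
    · exact h𝒰.of_subset (empty_subset _) (fun x => (hemp.false x).elim)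
  obtain ⟨𝒰', hsub, hcnt, hlarge⟩ := exists_countable_large h𝒰.1 h𝒰.2.2.2
  have hinf : 𝒰'.Infinite := (hlarge x0).mono fun U hU => hU.1
  have : Countable 𝒰' := hcnt.to_subtype
  have : Infinite 𝒰' := hinf.to_subtype
  obtain ⟨hden⟩ := nonempty_denumerable 𝒰'
  let v : ℕ ≃ 𝒰' := (Denumerable.eqv 𝒰').symm
  have hopen : ∀ n, ∃ O : Set ℝ, IsOpen O ∧ Subtype.val ⁻¹' O = (v n : Set (emb '' X)) := fun n =>
    isOpen_induced_iff.1 (h𝒰.1 _ (hsub (v n).2))
  choose O hO hOv using hopen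
  have hmem : ∀ (x : C) (hx : x ∈ X) (n : ℕ), x ∈ emb ⁻¹' (O n) ↔
      (⟨emb x, mem_image_of_mem _ hx⟩ : (emb '' X)) ∈ (v n : Set (emb '' X)) := by
    intro x hx n
    rw [← hOv n]; rfl
  obtain ⟨B, hB⟩ := h (fun n => emb ⁻¹' (O n)) (fun n => (hO n).preimage isEmbedding_emb.continuous) (by
    intro x hx
    by_contra hfin
    rw [not_infinite] at hfin
    apply hlarge ⟨emb x, mem_image_of_mem _ hx⟩
    refine (hfin.image (fun n => (v n : Set (emb '' X)))).subset ?_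
    rintro U ⟨hU, hxU⟩
    refine ⟨v.symm ⟨U, hU⟩, ?_, by simp⟩
    change x ∈ emb ⁻¹' (O (v.symm ⟨U, hU⟩))
    rw [hmem x hx]
    simpa using hxU)
  have hlargeB : ∀ (b : Bool), (∀ x ∈ X, {n | x ∈ emb ⁻¹' (O n) ∧ B n = b}.Infinite) →
      IsLargeCover ((fun n => (v n : Set (emb '' X))) '' {n | B n = b}) := by
    intro b hb
    refine h𝒰.of_subset ?_ ?_
    · rintro _ ⟨n, -, rfl⟩; exact hsub (v n).2
    · rintro ⟨_, x, hx, rfl⟩
      have hinj : Function.Injective (fun n => (v n : Set (emb '' X))) :=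
        Subtype.val_injective.comp v.injective
      refine ((hb x hx).image hinj.injOn).mono ?_
      rintro _ ⟨n, ⟨hn1, hn2⟩, rfl⟩
      exact ⟨⟨n, hn2, rfl⟩, (hmem x hx n).1 hn1⟩
  refine ⟨_, _, ?_, ?_, ?_, hlargeB true fun x hx => (hB x hx).1,
    hlargeB false fun x hx => (hB x hx).2⟩
  · rintro _ ⟨n, -, rfl⟩; exact hsub (v n).2
  · rintro _ ⟨n, -, rfl⟩; exact hsub (v n).2
  · rw [Set.disjoint_left]
    rintro _ ⟨n, hn, rfl⟩ ⟨m, hm, hmn⟩
    have : m = n := v.injective (Subtype.val_injective hmn)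
    subst this
    have h1 : B m = true := hn
    have h2 : B m = false := hm
    rw [h1] at h2
    exact absurd h2 (by decide)

lemma not_splitLL_image {Z : Set C} (hZ : ∀ m, (fun n => decide (n ≠ m)) ∈ Z)
    (hinf : ∀ x ∈ Z, {n | x n = true}.Infinite) (hns : ∀ A : C, ∃ x ∈ Z, Le x A ∨ Le x (co A)) :
    ¬ SplitLL (emb '' Z) := by
  classical
  intro hsplit
  have hopen : ∀ n : ℕ, ∃ O : Set ℝ, IsOpen O ∧ emb ⁻¹' O = {x : C | x n = true} := by
    intro n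
    have h1 : IsOpen {x : C | x n = true} := by
      have : {x : C | x n = true} = (fun x : C => x n) ⁻¹' {true} := rfl
      rw [this]
      exact (isOpen_discrete _).preimage (continuous_apply n)
    exact isEmbedding_emb.isInducing.isOpen_iff.1 h1
  choose O hO hOe using hopen
  set u : ℕ → Set (emb '' Z) := fun n => Subtype.val ⁻¹' (O n) with hu
  have hmem : ∀ (x : C) (hx : x ∈ Z) (n : ℕ),
      (⟨emb x, mem_image_of_mem _ hx⟩ : (emb '' Z)) ∈ u n ↔ x n = true := by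
    intro x hx n
    change x ∈ emb ⁻¹' (O n) ↔ _
    rw [hOe n]; rfl
  have hinj : Function.Injective u := by
    intro a b hab
    by_contra hne
    have h1 := hmem _ (hZ a) a
    have h2 := hmem _ (hZ a) b
    rw [hab, h2] at h1
    have : b ≠ a := fun h => hne h.symm
    simp [this] at h1
  have hlarge : IsLargeCover (range u) := by
    have hpt : ∀ x : (emb '' Z), {U | U ∈ range u ∧ x ∈ U}.Infinite := by
      rintro ⟨_, x, hx, rfl⟩
      refine ((hinf x hx).image hinj.injOn).mono ?_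
      rintro _ ⟨n, hn, rfl⟩
      exact ⟨⟨n, rfl⟩, (hmem x hx n).2 hn⟩
    refine ⟨?_, ?_, ?_, hpt⟩
    · rintro _ ⟨n, rfl⟩
      exact (hO n).preimage continuous_subtype_val
    · rw [eq_univ_iff_forall]
      intro x
      obtain ⟨U, hU, hxU⟩ := (hpt x).nonempty
      exact ⟨U, hU, hxU⟩
    · rintro ⟨n, hn⟩
      have h1 := hmem _ (hZ n) n
      rw [hn] at h1
      simp at h1
  obtain ⟨𝒱, 𝒲, h𝒱, h𝒲, hdis, hL1, hL2⟩ := hsplit _ hlarge
  obtain ⟨x, hx, hxA⟩ := hns (fun n => decide (u n ∈ 𝒱))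
  rcases hxA with hxA | hxA
  · obtain ⟨U, hU, hxU⟩ := (hL2.2.2.2 ⟨emb x, mem_image_of_mem _ hx⟩).nonempty
    obtain ⟨n, rfl⟩ := h𝒲 hU
    have := hxA n ((hmem x hx n).1 hxU)
    simp only [decide_eq_true_eq] at this
    exact Set.disjoint_left.1 hdis this hU
  · obtain ⟨U, hU, hxU⟩ := (hL1.2.2.2 ⟨emb x, mem_image_of_mem _ hx⟩).nonempty
    obtain ⟨n, rfl⟩ := h𝒱 hU
    have := hxA n ((hmem x hx n).1 hxU)
    simp [co, hU] at this

/-- The continuum hypothesis implies `cov(M) = 𝔠`. -/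
lemma covMeager_of_CH (h : (ℵ₁ : Cardinal.{0}) = 𝔠) : CovMeager := by
  intro 𝒟 hcard hD
  have hcnt : 𝒟.Countable := by
    rw [← le_aleph0_iff_set_countable, ← Order.lt_succ_iff, succ_aleph0, h]
    exact hcard
  exact (dense_sInter_of_isOpen (fun D hDD => (hD D hDD).1) hcnt (fun D hDD => (hD D hDD).2)).nonempty

/-- Under the continuum hypothesis, or just under `cov(M) = 𝔠`, the property `Split(Λ,Λ)` of sets
of reals is not additive; it is not even preserved by unions of two sets. -/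
theorem result (h : (ℵ₁ : Cardinal.{0}) = 𝔠 ∨ CovMeager) :
    ∃ X Y : Set ℝ, SplitLL X ∧ SplitLL Y ∧ ¬ SplitLL (X ∪ Y : Set ℝ) := by
  have H : CovMeager := h.elim covMeager_of_CH id
  obtain ⟨X, Y, hpt, hinf, hX, hY, hns⟩ := main_cantor H
  refine ⟨emb '' X, emb '' Y, splitLL_image hX, splitLL_image hY, ?_⟩
  rw [← image_union]
  exact not_splitLL_image (fun m => Or.inl (hpt m)) hinf hns

end Pool.Agent.Results.MP_674062_gt.NonAdditive
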