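import Pool.Agent.Work.MP_674062_gt.Un.Small

open Cardinal

namespace Pool.Agent.Results.MP_674062_gt.SmallSets

open Pool.Agent.Work.MP_674062_gt.Un

/-- A Menger set of reals with `Split(Λ,Λ)` keeps this property when fewer points than the reaping
number are added. -/
theorem result : ∀ X Y : Set ℝ, Menger X → SplitLL X → #Y < reapingNumber →
    SplitLL (X ∪ Y : Set ℝ) :=
  small

end Pool.Agent.Results.MP_674062_gt.SmallSets
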